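import Pool.Agent.H7.IA.Stmts

/-!
Board ia13 (MP_fd41b2_co), row UCL: cliques with exceptional vertices.
-/

set_option autoImplicit false

open Finset

namespace Pool.IA7

open Pool.Agent.H23.KT Pool.Agent.H46.KW Pool.KQ Pool.GT7 Pool.GU7 Pool.HZ7

theorem ucl_thm : UCLStmt := by
  intro V _ G p w W P U hd hc
  classical
  have hun : ∀ u, u ∈ un P ↔ ∃ i, u ∈ P i := by
    intro u
    unfold un
    simp
  let A : Finset (Finset V) := clq G (un P) (w + 2)
  let B : Finset (Finset V) :=
    U.biUnion fun z => (clq G (nb G (un P) z) (w + 1)).image fun R => insert z R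
  let C : Finset (Finset V) :=
    ((U ×ˢ U) ×ˢ W.powersetCard w).image fun x => insert x.1.1 (insert x.1.2 x.2)
  have hsub : clq G W (w + 2) ⊆ A ∪ B ∪ C := by
    intro S hS
    rw [mem_clq] at hS
    obtain ⟨hSW, hSc, hSq⟩ := hS
    rw [mem_union, mem_union]
    have hmem : ∀ u ∈ S, u ∉ U → u ∈ un P := by
      intro u hu hU
      rcases (hc u).1 (hSW hu) with h | h
      · exact absurd h hU
      · exact (hun u).2 h
    by_cases h0 : ∀ u ∈ S, u ∉ U
    · left
      left
      rw [mem_clq]
      exact ⟨fun u hu => hmem u hu (h0 u hu), hSc, hSq⟩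
    · push Not at h0
      obtain ⟨z, hzS, hzU⟩ := h0
      by_cases h1 : ∀ u ∈ S, u ≠ z → u ∉ U
      · left
        right
        rw [mem_biUnion]
        refine ⟨z, hzU, ?_⟩
        rw [mem_image]
        refine ⟨S.erase z, ?_, insert_erase hzS⟩
        rw [mem_clq]
        refine ⟨?_, ?_, ?_⟩
        · intro u hu
          rw [mem_erase] at hu
          rw [mem_nb]
          exact ⟨hmem u hu.2 (h1 u hu.2 hu.1), hSq (mem_coe.2 hzS) (mem_coe.2 hu.2) hu.1.symm⟩
        · rw [card_erase_of_mem hzS, hSc]
          rfl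
        · exact hSq.subset (coe_subset.2 (erase_subset z S))
      · push Not at h1
        obtain ⟨z', hz'S, hne, hz'U⟩ := h1
        right
        rw [mem_image]
        refine ⟨((z, z'), (S.erase z).erase z'), ?_, ?_⟩
        · rw [mem_product, mem_product, mem_powersetCard]
          refine ⟨⟨hzU, hz'U⟩, ?_, ?_⟩
          · exact ((erase_subset _ _).trans (erase_subset _ _)).trans hSW
          · rw [card_erase_of_mem (mem_erase.2 ⟨hne, hz'S⟩), card_erase_of_mem hzS, hSc]
            rfl
        · change insert z (insert z' ((S.erase z).erase z')) = S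
          rw [insert_erase (mem_erase.2 ⟨hne, hz'S⟩), insert_erase hzS]
  have hA : A.card = kc G (un P) (w + 2) := (kc_eq G _ _).symm
  have hB : B.card ≤ ∑ z ∈ U, kc G (nb G (un P) z) (w + 1) := by
    refine card_biUnion_le.trans (sum_le_sum fun z _ => ?_)
    rw [kc_eq]
    exact card_image_le
  have hC : C.card ≤ U.card ^ 2 * W.card ^ w := by
    refine card_image_le.trans ?_
    rw [card_product, card_product, card_powersetCard, sq]
    exact Nat.mul_le_mul_left _ (Nat.choose_le_pow _ _)
  calc kc G W (w + 2) = (clq G W (w + 2)).card := kc_eq G _ _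
    _ ≤ (A ∪ B ∪ C).card := card_le_card hsub
    _ ≤ A.card + B.card + C.card :=
        (card_union_le _ _).trans (Nat.add_le_add_right (card_union_le _ _) _)
    _ ≤ _ := by
        rw [hA]
        exact Nat.add_le_add (Nat.add_le_add_left hB _) hC

end Pool.IA7
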